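import Pool.Agent.H32.NS

open Set Filter

namespace Pool.Agent.Results.MP_5ff22d_lc.NotCongruence

open Pool.Agent.H32.NS

def v {I : Type} {V : Ultrafilter I} (x : Germ (V : Filter I) ℕ) : Set (Set ℕ) := {S | Star S x}

def UpClosed : Set (Set ℕ) := {A | {n | ∃ a ∈ A, a ∣ n} = A}

def Sim (F G : Set (Set ℕ)) : Prop := F ∩ UpClosed ⊆ G ∧ G ∩ UpClosed ⊆ F

theorem result : ∃ (I : Type) (V : Ultrafilter I) (x y z : Germ (V : Filter I) ℕ),
    v x = v y ∧ Sim (v x) (v y) ∧ ¬ Sim (v (x * z)) (v (y * z)) := by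
  let U := hyperfilter ℕ
  let p := Nat.nth Nat.Prime
  let V : Ultrafilter (ℕ × ℕ) := U.bind fun n => U.map (Prod.mk n)
  have e : v (V := V) (fun i : ℕ × ℕ => p i.1 : ℕ × ℕ → ℕ) =
      v (V := V) (fun i : ℕ × ℕ => p i.2 : ℕ × ℕ → ℕ) := by
    ext S
    show {n | {_m | p n ∈ S} ∈ U} ∈ U ↔ {_n | {m | p m ∈ S} ∈ U} ∈ U
    have k : ∀ P : Prop, {_m : ℕ | P} ∈ U ↔ P := fun P => by
      by_cases h : P
      · exact iff_of_true (univ_mem' (f := (U : Filter ℕ)) fun _ => h) h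
      · simp [h]
    simp only [k]
  refine ⟨_, V, _, _, (fun i : ℕ × ℕ => p i.1 : ℕ × ℕ → ℕ), e,
    ⟨e ▸ inter_subset_left, e ▸ inter_subset_left⟩, fun h => ?_⟩
  have h0 := h.1
  have h1 := @h0 {n | ¬ Squarefree n} ⟨univ_mem' (f := (V : Filter (ℕ × ℕ))) fun i k =>
    (Nat.prime_nth_prime i.1).not_isUnit (k _ dvd_rfl),
    Subset.antisymm (fun n ⟨a, a1, a2⟩ k => a1 (k.squarefree_of_dvd a2)) fun n k => ⟨n, k, dvd_rfl⟩⟩
  obtain ⟨n, hn⟩ := Ultrafilter.nonempty_of_mem (show _ ∈ U from h1)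
  obtain ⟨m, m1, m2⟩ := Ultrafilter.nonempty_of_mem (inter_mem (show _ ∈ U from hn)
    (finite_singleton n).compl_mem_hyperfilter)
  refine m1 ((Nat.squarefree_mul ((Nat.coprime_primes (Nat.prime_nth_prime m)
    (Nat.prime_nth_prime n)).2 fun k => m2 (Nat.nth_injective Nat.infinite_setOfPred_prime k))).2
    ⟨(Nat.prime_nth_prime m).squarefree, (Nat.prime_nth_prime n).squarefree⟩)

end Pool.Agent.Results.MP_5ff22d_lc.NotCongruence
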